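import Pool.Agent.H289R3.FS.Null

set_option autoImplicit false
open Set Topology Filter
open scoped unitInterval

namespace Pool.Agent.H289R3.FS

variable {Y N : Type*} [TopologicalSpace Y] [TopologicalSpace N] {φ : ℝ → Y → Y} {f : Y → N}

/-- `L y t` is the variation of a real lift of `D` along the orbit of `y` from time `0` to `t`. -/
structure IsVar (φ : ℝ → Y → Y) (D : Y → T1) (L : Y → ℝ → ℝ) : Prop where
  cont : Continuous (fun p : Y × ℝ => L p.1 p.2)
  zero : ∀ y, L y 0 = 0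
  coe : ∀ y t, ((L y t : ℝ) : T1) = D (φ t y) - D y

theorem OFlow.exists_var (h : OFlow φ f) {D : Y → T1} (hD : Continuous D) :
    ∃ L : Y → ℝ → ℝ, IsVar φ D L := by
  let H : C(I × (Y × ℝ), T1) := ⟨fun p => D (φ (p.1 * p.2.2) p.2.1) - D p.2.1, by
    apply Continuous.sub
    · exact hD.comp (h.cont.comp
        (by fun_prop : Continuous fun p : I × (Y × ℝ) => (((p.1 : ℝ) * p.2.2, p.2.1) : ℝ × Y)))
    · exact hD.comp (by fun_prop)⟩
  have H0 : ∀ a, H (0, a) = (((0 : C(Y × ℝ, ℝ)) a : ℝ) : T1) := by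
    intro a
    simp [H, h.zero]
  let Lf := (AddCircle.isCoveringMap_coe (1 : ℝ)).liftHomotopy H 0 H0
  have hl : ∀ x, ((Lf x : ℝ) : T1) = H x := fun x =>
    congrFun ((AddCircle.isCoveringMap_coe (1 : ℝ)).liftHomotopy_lifts H 0 H0) x
  have h0 : ∀ a, Lf (0, a) = 0 := fun a =>
    (AddCircle.isCoveringMap_coe (1 : ℝ)).liftHomotopy_zero H 0 H0 a
  refine ⟨fun y t => Lf (1, (y, t)), ?_, ?_, ?_⟩
  · fun_prop
  · intro y
    have := lift_unique (K := (univ : Set I)) isPreconnected_univ (l := fun _ => (0 : ℝ))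
      (l' := fun s => Lf (s, (y, 0))) continuousOn_const (by fun_prop) (by
        intro s _
        rw [hl]
        simp [H, h.zero]) (mem_univ 0) 1 (mem_univ _)
    simp only [h0] at this
    simpa using this
  · intro y t
    rw [hl]
    simp [H]

theorem IsVar.add {D : Y → T1} {L : Y → ℝ → ℝ} (hL : IsVar φ D L) (h : OFlow φ f) (y : Y)
    (s t : ℝ) : L y (s + t) = L y t + L (φ t y) s := by
  have := lift_unique (K := (univ : Set ℝ)) isPreconnected_univ
    (l := fun s => L y (s + t)) (l' := fun s => L y t + L (φ t y) s)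
    (Continuous.continuousOn (hL.cont.comp (by fun_prop : Continuous fun s : ℝ => (y, s + t))))
    (Continuous.continuousOn (continuous_const.add
      (hL.cont.comp (by fun_prop : Continuous fun s : ℝ => (φ t y, s))))) (by
      intro s _
      rw [AddCircle.coe_add, hL.coe, hL.coe, hL.coe, ← h.add]
      abel) (mem_univ 0) s (mem_univ _)
  simp only [zero_add, hL.zero, add_zero, sub_self] at this
  exact this.symm

theorem IsVar.orbit_eq {D : Y → T1} {L : Y → ℝ → ℝ} (hL : IsVar φ D L) (h : OFlow φ f) {y : Y}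
    {l : Y → ℝ} (hl : ContinuousOn l (f ⁻¹' {f y})) (hlD : ∀ z ∈ f ⁻¹' {f y}, ((l z : ℝ) : T1) = D z)
    (t : ℝ) : L y t = l (φ t y) - l y := by
  have hmem : ∀ s, φ s y ∈ f ⁻¹' {f y} := fun s => h.f_flow s y
  have := lift_unique (K := (univ : Set ℝ)) isPreconnected_univ
    (l := fun s => l (φ s y) - l y) (l' := fun s => L y s)
    ((hl.comp (h.orbit_cont y).continuousOn (fun s _ => hmem s)).sub continuousOn_const)
    (Continuous.continuousOn (hL.cont.comp (by fun_prop : Continuous fun s : ℝ => (y, s)))) (by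
      intro s _
      have e0 : ((l y : ℝ) : T1) = D y := hlD y rfl
      rw [AddCircle.coe_sub, hlD _ (hmem s), e0, hL.coe]) (mem_univ 0) t (mem_univ _)
  simp only [hL.zero, h.zero, sub_self, add_zero] at this
  exact this

theorem IsVar.zero_of_null {D : Y → T1} {L : Y → ℝ → ℝ} (hL : IsVar φ D L) (h : OFlow φ f) {y : Y}
    (hN : Null f D (f y)) {T : ℝ} (hT : φ T y = y) : L y T = 0 := by
  obtain ⟨l, hl, hlD⟩ := hN
  rw [hL.orbit_eq h hl hlD, hT, sub_self]

theorem IsVar.null_of_zero [T2Space Y] {D : Y → T1} {L : Y → ℝ → ℝ} (hL : IsVar φ D L)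
    (h : OFlow φ f) {y : Y} {T : ℝ} (hT0 : 0 < T) (hT : φ T y = y) (hLT : L y T = 0) :
    Null f D (f y) := by
  classical
  have hper : Function.Periodic (L y) T := by
    intro s
    rw [hL.add h, hLT, hT, zero_add]
  have hLc : Continuous (L y) := hL.cont.comp (by fun_prop : Continuous fun s : ℝ => (y, s))
  obtain ⟨B, hB⟩ : ∃ B, ∀ s, |L y s| ≤ B := by
    obtain ⟨B, hB⟩ := isCompact_Icc.exists_bound_of_continuousOn (s := Icc 0 T) hLc.continuousOn
    refine ⟨B, fun s => ?_⟩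
    obtain ⟨s', hs', hs''⟩ := hper.exists_mem_Ico₀ hT0 s
    rw [hs'']
    exact hB s' ⟨hs'.1, hs'.2.le⟩
  have hP : ∀ P, φ P y = y → L y P = 0 := by
    intro P hP
    have hn : ∀ n : ℕ, L y (n * P) = n * L y P := by
      intro n
      induction n with
      | zero => simp [hL.zero]
      | succ n ih =>
        have : ((n + 1 : ℕ) : ℝ) * P = n * P + P := by push_cast; ring
        rw [this, hL.add h, hP, ih]
        push_cast
        ring
    by_contra hne
    obtain ⟨n, hn'⟩ := exists_nat_gt (B / |L y P|)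
    have h1 := hB (n * P)
    rw [hn, abs_mul, Nat.abs_cast] at h1
    rw [div_lt_iff₀ (abs_pos.2 hne)] at hn'
    linarith
  obtain ⟨c0, hc0⟩ : ∃ c0 : ℝ, ((c0 : ℝ) : T1) = D y := ⟨_, coe_sm (D y)⟩
  let tt : Y → ℝ := fun z => if hz : ∃ t, φ t y = z then hz.choose else 0
  have htt : ∀ z ∈ f ⁻¹' {f y}, φ (tt z) y = z := by
    intro z hz
    have hz' := (h.fibre y z).1 (Eq.symm hz)
    simp only [tt, hz', dif_pos]
    exact hz'.choose_spec
  have hLtt : ∀ t, L y (tt (φ t y)) = L y t := by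
    intro t
    have e := htt (φ t y) (h.f_flow t y)
    have e2 : φ (tt (φ t y) - t) y = y := by
      have : y = φ (-t) (φ t y) := by rw [← h.add, neg_add_cancel, h.zero]
      conv_rhs => rw [this]
      rw [← e, ← h.add]
      congr 1
      rw [e]
      ring
    have e3 := hL.add h y t (tt (φ t y) - t)
    rw [e2, hP _ e2, zero_add] at e3
    rw [← e3]
    congr 1
    ring
  refine ⟨fun z => c0 + L y (tt z), ?_, ?_⟩
  · rw [continuousOn_iff_isClosed]
    intro A hA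
    have hcont : Continuous (fun t => c0 + L y t) := continuous_const.add hLc
    refine ⟨(fun t => φ t y) '' (Icc 0 T ∩ (fun t => c0 + L y t) ⁻¹' A), ?_, ?_⟩
    · exact ((isCompact_Icc.inter_right (hA.preimage hcont)).image (h.orbit_cont y)).isClosed
    · ext z
      constructor
      · rintro ⟨hz1, hz2⟩
        refine ⟨?_, hz2⟩
        obtain ⟨t, rfl⟩ := (h.fibre y z).1 (Eq.symm hz2)
        have hz1' : c0 + L y t ∈ A := by
          have : c0 + L y (tt (φ t y)) ∈ A := hz1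
          rwa [hLtt] at this
        have hperφ : Function.Periodic (fun t => φ t y) T := by
          intro s
          simp only
          rw [h.add, hT]
        have hper2 : Function.Periodic (fun t => (φ t y, L y t)) T := by
          intro s
          simp only
          rw [h.add, hT, hper s]
        obtain ⟨s', hs', hs''⟩ := hper2.exists_mem_Ico₀ hT0 t
        simp only [Prod.mk.injEq] at hs''
        refine ⟨s', ⟨⟨hs'.1, hs'.2.le⟩, ?_⟩, hs''.1.symm⟩
        change c0 + L y s' ∈ A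
        rw [← hs''.2]
        exact hz1'
      · rintro ⟨⟨t, ⟨-, ht⟩, rfl⟩, hz2⟩
        refine ⟨?_, hz2⟩
        change c0 + L y (tt (φ t y)) ∈ A
        rw [hLtt]
        exact ht
  · intro z hz
    rw [AddCircle.coe_add, hL.coe, htt z hz, hc0]
    abel

theorem null_of_fixed {D : Y → T1} (h : OFlow φ f) {y : Y} (hy : ∀ t, φ t y = y) :
    Null f D (f y) := by
  have hz : ∀ z ∈ f ⁻¹' {f y}, z = y := by
    intro z hz
    obtain ⟨t, rfl⟩ := (h.fibre y z).1 (Eq.symm hz)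
    exact hy t
  refine ⟨fun _ => sm (D y), continuousOn_const, fun z hz' => ?_⟩
  rw [coe_sm, hz z hz']

/-- the combination of `D₂` and `D₁` of slope `r` -/
def comb (D₁ D₂ : Y → T1) (r : ℚ) : Y → T1 := fun z => (r.den : ℤ) • D₂ z - r.num • D₁ z

theorem comb_cont {D₁ D₂ : Y → T1} (h1 : Continuous D₁) (h2 : Continuous D₂) (r : ℚ) :
    Continuous (comb D₁ D₂ r) := (h2.zsmul _).sub (h1.zsmul _)

theorem comb_var {D₁ D₂ : Y → T1} {L₁ L₂ : Y → ℝ → ℝ} (h1 : IsVar φ D₁ L₁) (h2 : IsVar φ D₂ L₂)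
    (r : ℚ) : IsVar φ (comb D₁ D₂ r) (fun y t => (r.den : ℝ) * L₂ y t - (r.num : ℝ) * L₁ y t) where
  cont := (continuous_const.mul h2.cont).sub (continuous_const.mul h1.cont)
  zero y := by simp [h1.zero, h2.zero]
  coe y t := by
    have e1 : (((r.den : ℝ) * L₂ y t : ℝ) : T1) = (r.den : ℤ) • ((L₂ y t : ℝ) : T1) := by
      rw [← AddCircle.coe_zsmul, zsmul_eq_mul]
      push_cast
      rfl
    have e2 : (((r.num : ℝ) * L₁ y t : ℝ) : T1) = r.num • ((L₁ y t : ℝ) : T1) := by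
      rw [← AddCircle.coe_zsmul, zsmul_eq_mul]
    rw [AddCircle.coe_sub, e1, e2, h1.coe, h2.coe]
    simp only [comb]
    rw [zsmul_sub, zsmul_sub]
    abel

theorem OFlow.slope_exists {Y N : Type} [TopologicalSpace Y] [T2Space Y] [NormalSpace Y]
    [LocallyCompactSpace Y] [TopologicalSpace N] [T2Space N] {φ : ℝ → Y → Y} {f : Y → N}
    (hP : TaskProper) (h : OFlow φ f) {D₁ D₂ : Y → T1} (hD₁ : Continuous D₁)
    (hD₂ : Continuous D₂) {y0 : Y} (hc : IsCompact (f ⁻¹' {f y0})) (hN : ¬ Null f D₁ (f y0)) :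
    ∃ r : ℚ, ∀ᶠ n in 𝓝 (f y0), ¬ Null f D₁ n ∧ Null f (comb D₁ D₂ r) n := by
  obtain ⟨L₁, hL₁⟩ := h.exists_var hD₁
  obtain ⟨L₂, hL₂⟩ := h.exists_var hD₂
  obtain ⟨T0, hT0, hper⟩ := h.periodic hP hc
  have hint : ∀ {D : Y → T1} {L : Y → ℝ → ℝ}, IsVar φ D L → ∀ y T, φ T y = y →
      ∃ d : ℤ, (d : ℝ) = L y T := by
    intro D L hL y T hT
    rw [← coe_eq_zero, hL.coe, hT, sub_self]
  obtain ⟨d₁, hd₁⟩ := hint hL₁ y0 T0 hper
  obtain ⟨d₂, hd₂⟩ := hint hL₂ y0 T0 hper
  have hd₁0 : d₁ ≠ 0 := by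
    rintro rfl
    exact hN (hL₁.null_of_zero h hT0 hper (by rw [← hd₁]; simp))
  let r : ℚ := (d₂ : ℚ) / d₁
  have hr : (r.den : ℝ) * d₂ - (r.num : ℝ) * d₁ = 0 := by
    have h1 : (r.num : ℚ) / r.den = (d₂ : ℚ) / d₁ := Rat.num_div_den r
    have hd : (r.den : ℚ) ≠ 0 := by exact_mod_cast r.den_nz
    have hd1 : (d₁ : ℚ) ≠ 0 := by exact_mod_cast hd₁0
    rw [div_eq_div_iff hd hd1] at h1
    have : (r.den : ℚ) * d₂ - (r.num : ℚ) * d₁ = 0 := by linarith
    exact_mod_cast this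
  have hnull : Null f (comb D₁ D₂ r) (f y0) := by
    apply (comb_var hL₁ hL₂ r).null_of_zero h hT0 hper
    rw [← hd₁, ← hd₂]
    exact hr
  -- the variation over time `T0` is constant on the orbit
  have hconst : ∀ z ∈ f ⁻¹' {f y0}, L₁ z T0 = d₁ := by
    intro z hz
    obtain ⟨t, rfl⟩ := (h.fibre y0 z).1 (Eq.symm hz)
    have e1 := hL₁.add h y0 T0 t
    have e2 := hL₁.add h y0 t T0
    rw [add_comm t T0, hper] at e2
    linarith
  have hOo : IsOpen {z : Y | |L₁ z T0 - d₁| < 1 / 2} := by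
    apply isOpen_lt _ continuous_const
    exact ((hL₁.cont.comp (by fun_prop : Continuous fun z : Y => (z, T0))).sub
      continuous_const).abs
  obtain ⟨M, -, hMO, hev⟩ := h.stable hc hOo (fun z hz => by
    have := hconst z hz
    simp only [mem_ofPred_eq, this, sub_self, abs_zero]
    norm_num)
  refine ⟨r, ?_⟩
  have hsurj : ∀ᶠ n in 𝓝 (f y0), n ∈ range f := by
    have := (h.fopen univ isOpen_univ).mem_nhds (show f y0 ∈ f '' univ from ⟨y0, mem_univ _, rfl⟩)
    rwa [image_univ] at this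
  filter_upwards [(h.val_cont (comb_cont hD₁ hD₂ r) hc hnull).2, hev, h.compact_nhds hc, hsurj]
    with n hn1 hn2 hn3 hn4
  refine ⟨fun hN' => ?_, hn1⟩
  obtain ⟨y, rfl⟩ := hn4
  obtain ⟨l, hl, hlD⟩ := hN'
  obtain ⟨B, hB⟩ := hn3.exists_bound_of_continuousOn hl
  have hmem : ∀ t, φ t y ∈ f ⁻¹' {f y} := fun t => h.f_flow t y
  have hd1' : (1 : ℝ) ≤ |(d₁ : ℝ)| := by
    have : (1 : ℤ) ≤ |d₁| := Int.one_le_abs hd₁0
    exact_mod_cast this
  have hstep : ∀ k : ℕ, |L₁ y (k * T0) - k * d₁| ≤ k * (1 / 2) := by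
    intro k
    induction k with
    | zero => simp [hL₁.zero]
    | succ k ih =>
      have e : ((k + 1 : ℕ) : ℝ) * T0 = T0 + k * T0 := by push_cast; ring
      rw [e, hL₁.add h]
      have h1 : |L₁ (φ (k * T0) y) T0 - d₁| < 1 / 2 := hMO (hn2 (hmem _))
      have e2 : L₁ y (k * T0) + L₁ (φ (k * T0) y) T0 - ((k + 1 : ℕ) : ℝ) * d₁ =
          (L₁ y (k * T0) - k * d₁) + (L₁ (φ (k * T0) y) T0 - d₁) := by push_cast; ring
      rw [e2]
      refine (abs_add_le _ _).trans ?_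
      push_cast
      linarith
  obtain ⟨k, hk⟩ := exists_nat_gt (4 * B)
  have h1 := hstep k
  rw [hL₁.orbit_eq h hl hlD] at h1
  have h2 := hB _ (hmem (k * T0))
  have h3 := hB y rfl
  rw [Real.norm_eq_abs] at h2 h3
  have h4 : |(k : ℝ) * d₁| = k * |(d₁ : ℝ)| := by rw [abs_mul, Nat.abs_cast]
  have h5 : |(k : ℝ) * d₁| ≤ |l (φ (k * T0) y) - l y - k * d₁| + |l (φ (k * T0) y)| + |l y| := by
    have e3 : (k : ℝ) * d₁ = -(l (φ (k * T0) y) - l y - k * d₁) + l (φ (k * T0) y) - l y := by ring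
    conv_lhs => rw [e3]
    refine (abs_sub _ _).trans ?_
    refine add_le_add ((abs_add_le _ _).trans ?_) le_rfl
    rw [abs_neg]
  have h6 : (k : ℝ) ≤ k * |(d₁ : ℝ)| := by
    have : (0 : ℝ) ≤ k := Nat.cast_nonneg k
    nlinarith
  rw [h4] at h5
  linarith

theorem OFlow.slope_unique {Y N : Type} [TopologicalSpace Y] [T2Space Y]
    [LocallyCompactSpace Y] [TopologicalSpace N] [T2Space N] {φ : ℝ → Y → Y} {f : Y → N}
    (hP : TaskProper) (h : OFlow φ f) {D₁ D₂ : Y → T1} (hD₁ : Continuous D₁)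
    (hD₂ : Continuous D₂) {y0 : Y} (hc : IsCompact (f ⁻¹' {f y0})) (hN : ¬ Null f D₁ (f y0))
    {r r' : ℚ} (hr : Null f (comb D₁ D₂ r) (f y0)) (hr' : Null f (comb D₁ D₂ r') (f y0)) :
    r = r' := by
  obtain ⟨L₁, hL₁⟩ := h.exists_var hD₁
  obtain ⟨L₂, hL₂⟩ := h.exists_var hD₂
  obtain ⟨T0, hT0, hper⟩ := h.periodic hP hc
  have e1 : (r.den : ℝ) * L₂ y0 T0 - (r.num : ℝ) * L₁ y0 T0 = 0 :=
    (comb_var hL₁ hL₂ r).zero_of_null h hr hper
  have e2 : (r'.den : ℝ) * L₂ y0 T0 - (r'.num : ℝ) * L₁ y0 T0 = 0 :=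
    (comb_var hL₁ hL₂ r').zero_of_null h hr' hper
  have hL0 : L₁ y0 T0 ≠ 0 := fun h0 => hN (hL₁.null_of_zero h hT0 hper h0)
  have hd : (r.den : ℝ) ≠ 0 := by exact_mod_cast r.den_nz
  have hd' : (r'.den : ℝ) ≠ 0 := by exact_mod_cast r'.den_nz
  have hx : ((r : ℚ) : ℝ) = ((r' : ℚ) : ℝ) := by
    rw [Rat.cast_def, Rat.cast_def, div_eq_div_iff hd hd']
    have : ((r.num : ℝ) * r'.den - r'.num * r.den) * L₁ y0 T0 = 0 := by
      linear_combination (r.den : ℝ) * e2 - (r'.den : ℝ) * e1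
    rcases mul_eq_zero.1 this with h1 | h1
    · linarith
    · exact absurd h1 hL0
  exact_mod_cast hx

end Pool.Agent.H289R3.FS
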