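import Pool.Agent.H289R3.FS.Stmts

set_option autoImplicit false
open Set Topology Filter

namespace Pool.Agent.H289R3.FS

variable {Y N : Type*} [TopologicalSpace Y] [TopologicalSpace N] {φ : ℝ → Y → Y} {f : Y → N}

theorem OFlow.orbit_cont (h : OFlow φ f) (y : Y) : Continuous (fun t => φ t y) :=
  h.cont.comp (continuous_id.prodMk continuous_const)

theorem OFlow.time_cont (h : OFlow φ f) (t : ℝ) : Continuous (φ t) :=
  h.cont.comp (continuous_const.prodMk continuous_id)

theorem OFlow.f_flow (h : OFlow φ f) (t : ℝ) (y : Y) : f (φ t y) = f y :=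
  ((h.fibre y (φ t y)).2 ⟨t, rfl⟩).symm

theorem OFlow.fibre_eq (h : OFlow φ f) (y : Y) : f ⁻¹' {f y} = range (fun t => φ t y) := by
  ext z
  simp only [mem_preimage, mem_singleton_iff, mem_range]
  rw [eq_comm, h.fibre y z]

theorem OFlow.conn (h : OFlow φ f) (n : N) : IsPreconnected (f ⁻¹' {n}) := by
  by_cases hn : ∃ y, f y = n
  · obtain ⟨y, rfl⟩ := hn
    rw [h.fibre_eq]
    exact isPreconnected_range (h.orbit_cont y)
  · have : f ⁻¹' {n} = ∅ := by
      ext z
      simp only [mem_preimage, mem_singleton_iff, mem_empty_iff_false, iff_false]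
      exact fun hz => hn ⟨z, hz⟩
    rw [this]
    exact isPreconnected_empty

/-- compact orbits are stable -/
theorem OFlow.stable [T2Space Y] [LocallyCompactSpace Y] [T2Space N] (h : OFlow φ f) {y0 : Y}
    (hc : IsCompact (f ⁻¹' {f y0})) {O : Set Y} (hO : IsOpen O) (hsub : f ⁻¹' {f y0} ⊆ O) :
    ∃ L : Set Y, IsCompact L ∧ L ⊆ O ∧ ∀ᶠ n in 𝓝 (f y0), f ⁻¹' {n} ⊆ L := by
  obtain ⟨L, hL, h1, h2⟩ := exists_compact_between hc hO hsub
  refine ⟨L, hL, h2, ?_⟩
  have hfr : IsCompact (frontier (interior L)) := by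
    apply hL.of_isClosed_subset isClosed_frontier
    exact (frontier_subset_closure.trans (closure_mono interior_subset)).trans
      hL.isClosed.closure_subset
  have hcl : IsClosed (f '' frontier (interior L)) := (hfr.image h.fcont).isClosed
  have hnot : f y0 ∉ f '' frontier (interior L) := by
    rintro ⟨z, hz, hzf⟩
    have : z ∈ interior L := h1 hzf
    have hfe := (isOpen_interior (s := L)).frontier_eq
    rw [hfe] at hz
    exact hz.2 this
  have e1 : ∀ᶠ n in 𝓝 (f y0), n ∉ f '' frontier (interior L) := hcl.isOpen_compl.mem_nhds hnot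
  have e2 : ∀ᶠ n in 𝓝 (f y0), n ∈ f '' interior L :=
    (h.fopen _ isOpen_interior).mem_nhds ⟨y0, h1 rfl, rfl⟩
  filter_upwards [e1, e2] with n hn1 hn2
  obtain ⟨z, hz, rfl⟩ := hn2
  by_contra hcon
  obtain ⟨w, hw, hwL⟩ := not_subset.1 hcon
  have hfe := (isOpen_interior (s := L)).frontier_eq
  have hcov : f ⁻¹' {f z} ⊆ interior L ∪ (closure (interior L))ᶜ := by
    intro v hv
    by_contra hv'
    simp only [mem_union, mem_compl_iff, not_or, not_not] at hv'
    exact hn1 ⟨v, by rw [hfe]; exact ⟨hv'.2, hv'.1⟩, hv⟩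
  obtain ⟨v, -, hv1, hv2⟩ := h.conn (f z) _ _ isOpen_interior isClosed_closure.isOpen_compl hcov
    ⟨z, rfl, hz⟩ ⟨w, hw, fun hw' => hwL (by
      have : closure (interior L) ⊆ L := (closure_mono interior_subset).trans
        hL.isClosed.closure_subset
      exact this hw')⟩
  exact hv2 (subset_closure hv1)

theorem OFlow.compact_nhds [T2Space Y] [LocallyCompactSpace Y] [T2Space N] (h : OFlow φ f) {y0 : Y}
    (hc : IsCompact (f ⁻¹' {f y0})) : ∀ᶠ n in 𝓝 (f y0), IsCompact (f ⁻¹' {n}) := by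
  obtain ⟨L, hL, -, h2⟩ := h.stable hc isOpen_univ (subset_univ _)
  filter_upwards [h2] with n hn
  exact hL.of_isClosed_subset (isClosed_singleton.preimage h.fcont) hn

theorem OFlow.periodic {Y N : Type} [TopologicalSpace Y] [T2Space Y] [LocallyCompactSpace Y]
    [TopologicalSpace N] [T1Space N] {φ : ℝ → Y → Y} {f : Y → N} (hP : TaskProper)
    (h : OFlow φ f) {y : Y} (hc : IsCompact (f ⁻¹' {f y})) : ∃ T > 0, φ T y = y := by
  by_contra hcon
  push Not at hcon
  have hfree : ∀ t, φ t y = y → t = 0 := by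
    intro t ht
    by_contra hne
    rcases lt_or_gt_of_ne hne with h1 | h1
    · refine hcon (-t) (by linarith) ?_
      conv_lhs => rw [← ht]
      rw [← h.add, neg_add_cancel, h.zero]
    · exact hcon t h1 ht
  obtain ⟨R, hR⟩ := hP Y N φ f h y hfree _ hc
  have := hR (|R| + 1) (h.f_flow _ _)
  rw [abs_of_nonneg (by positivity)] at this
  linarith [le_abs_self R]

end Pool.Agent.H289R3.FS
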