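import Pool.Agent.H289R3.FS.Stmts

/-!
# Task LIFT: lifting through the Hopf fibration over a ball
-/

set_option autoImplicit false
open Set Topology

namespace Pool.Agent.H289R3.FS

/-- the (doubled) projection onto the line -/
noncomputable def liftP (p : EuclideanSpace ℝ (Fin 3)) (v : ℂ × ℂ) : ℂ × ℂ :=
  ((1 + p 2) * v.1 + ((p 0 : ℂ) - p 1 * Complex.I) * v.2,
    ((p 0 : ℂ) + p 1 * Complex.I) * v.1 + (1 - p 2) * v.2)

theorem lift_sq (p : S2) : (p.1 0) ^ 2 + (p.1 1) ^ 2 + (p.1 2) ^ 2 = 1 := by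
  have h : ‖p.1‖ = 1 := by simp
  have h2 := EuclideanSpace.real_norm_sq_eq p.1
  rw [h, Fin.sum_univ_three] at h2
  linarith

theorem lift_inLine (p : S2) (v : ℂ × ℂ) : InLine p.1 (liftP p.1 v) := by
  have h : ((p.1 0 : ℝ) : ℂ) ^ 2 + ((p.1 1 : ℝ) : ℂ) ^ 2 + ((p.1 2 : ℝ) : ℂ) ^ 2 = 1 := by
    have := congrArg (fun r : ℝ => (r : ℂ)) (lift_sq p)
    push_cast at this
    exact this
  constructor
  · change (((p.1 0 : ℝ) : ℂ) - (p.1 1 : ℝ) * Complex.I) *
        ((((p.1 0 : ℝ) : ℂ) + (p.1 1 : ℝ) * Complex.I) * v.1 + (1 - ((p.1 2 : ℝ) : ℂ)) * v.2) =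
      (1 - ((p.1 2 : ℝ) : ℂ)) *
        ((1 + ((p.1 2 : ℝ) : ℂ)) * v.1 + (((p.1 0 : ℝ) : ℂ) - (p.1 1 : ℝ) * Complex.I) * v.2)
    linear_combination v.1 * h - ((p.1 1 : ℝ) : ℂ) ^ 2 * v.1 * Complex.I_sq
  · change (((p.1 0 : ℝ) : ℂ) + (p.1 1 : ℝ) * Complex.I) *
        ((1 + ((p.1 2 : ℝ) : ℂ)) * v.1 + (((p.1 0 : ℝ) : ℂ) - (p.1 1 : ℝ) * Complex.I) * v.2) =
      (1 + ((p.1 2 : ℝ) : ℂ)) *
        ((((p.1 0 : ℝ) : ℂ) + (p.1 1 : ℝ) * Complex.I) * v.1 + (1 - ((p.1 2 : ℝ) : ℂ)) * v.2)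
    linear_combination v.2 * h - ((p.1 1 : ℝ) : ℂ) ^ 2 * v.2 * Complex.I_sq

theorem lift_anti (p q : EuclideanSpace ℝ (Fin 3)) (v : ℂ × ℂ) (hv : v ≠ 0) (h : InLine p v)
    (hq : liftP q v = 0) : p = -q := by
  obtain ⟨z, w⟩ := v
  obtain ⟨h1, h2⟩ := h
  have h3 := congrArg Prod.fst hq
  have h4 := congrArg Prod.snd hq
  have r1 := congrArg Complex.re h1
  have i1 := congrArg Complex.im h1
  have r2 := congrArg Complex.re h2
  have i2 := congrArg Complex.im h2
  have r3 := congrArg Complex.re h3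
  have i3 := congrArg Complex.im h3
  have r4 := congrArg Complex.re h4
  have i4 := congrArg Complex.im h4
  simp [liftP] at r1 i1 r2 i2 r3 i3 r4 i4
  have hN : 0 < z.re ^ 2 + z.im ^ 2 + w.re ^ 2 + w.im ^ 2 := by
    by_contra hN
    apply hv
    have a1 : z.re = 0 := by nlinarith [sq_nonneg z.re, sq_nonneg z.im, sq_nonneg w.re, sq_nonneg w.im]
    have a2 : z.im = 0 := by nlinarith [sq_nonneg z.re, sq_nonneg z.im, sq_nonneg w.re, sq_nonneg w.im]
    have a3 : w.re = 0 := by nlinarith [sq_nonneg z.re, sq_nonneg z.im, sq_nonneg w.re, sq_nonneg w.im]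
    have a4 : w.im = 0 := by nlinarith [sq_nonneg z.re, sq_nonneg z.im, sq_nonneg w.re, sq_nonneg w.im]
    exact Prod.ext (Complex.ext a1 a2) (Complex.ext a3 a4)
  have e0 : (z.re ^ 2 + z.im ^ 2 + w.re ^ 2 + w.im ^ 2) * (p 0 + q 0) = 0 := by
    linear_combination w.re * r1 + w.im * i1 + z.re * r2 + z.im * i2 + z.re * r4 + z.im * i4 +
      w.re * r3 + w.im * i3
  have e1 : (z.re ^ 2 + z.im ^ 2 + w.re ^ 2 + w.im ^ 2) * (p 1 + q 1) = 0 := by
    linear_combination w.im * r1 - w.re * i1 + z.re * i2 - z.im * r2 + w.im * r3 - w.re * i3 +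
      z.re * i4 - z.im * r4
  have e2 : (z.re ^ 2 + z.im ^ 2 + w.re ^ 2 + w.im ^ 2) * (p 2 + q 2) = 0 := by
    linear_combination (z.re * r1 + z.im * i1) - (w.re * r2 + w.im * i2) +
      (z.re * r3 + z.im * i3) - (w.re * r4 + w.im * i4)
  ext j
  fin_cases j
  · have := (mul_eq_zero.1 e0).resolve_left hN.ne'
    simpa using eq_neg_of_add_eq_zero_left this
  · have := (mul_eq_zero.1 e1).resolve_left hN.ne'
    simpa using eq_neg_of_add_eq_zero_left this
  · have := (mul_eq_zero.1 e2).resolve_left hN.ne'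
    simpa using eq_neg_of_add_eq_zero_left this

theorem lift_exists (p : S2) : ∃ v : ℂ × ℂ, v ≠ 0 ∧ InLine p.1 v := by
  by_cases h : p.1 2 = 1
  · refine ⟨liftP p.1 (1, 0), ?_, lift_inLine p _⟩
    intro h0
    have := congrArg (fun x : ℂ × ℂ => x.1.re) h0
    simp [liftP, h] at this
  · refine ⟨liftP p.1 (0, 1), ?_, lift_inLine p _⟩
    intro h0
    have := congrArg (fun x : ℂ × ℂ => x.2.re) h0
    simp [liftP] at this
    exact h (by linarith)

theorem lift_step (p q : S2) (hpq : dist p q < 2) (v : ℂ × ℂ) (hv : v ≠ 0) (h : InLine p.1 v) :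
    liftP q.1 v ≠ 0 := by
  intro h0
  have := lift_anti p.1 q.1 v hv h h0
  rw [Subtype.dist_eq, this, dist_eq_norm] at hpq
  have h1 : ‖q.1‖ = 1 := by simp
  have h2 : -q.1 - q.1 = (-2 : ℝ) • q.1 := by module
  rw [h2, norm_smul, h1] at hpq
  norm_num at hpq

theorem taskLift : TaskLift := by
  intro E _ _ _ q hq R
  obtain ⟨v0, hv0, hl0⟩ := lift_exists (q 0)
  have hproper : ProperSpace E := FiniteDimensional.proper ℝ E
  have huc : UniformContinuousOn q (Metric.closedBall (0 : E) R) :=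
    (isCompact_closedBall (0 : E) R).uniformContinuousOn_of_continuous hq.continuousOn
  rw [Metric.uniformContinuousOn_iff] at huc
  obtain ⟨δ, hδ, hu⟩ := huc 2 (by norm_num)
  obtain ⟨k, hk⟩ := exists_nat_gt (max (R / δ) 0)
  have hk0 : (0 : ℝ) < k := lt_of_le_of_lt (le_max_right _ _) hk
  have hkR : R < k * δ := by
    have := lt_of_le_of_lt (le_max_left _ _) hk
    rwa [div_lt_iff₀ hδ] at this
  -- the lifts
  let σ : ℕ → E → ℂ × ℂ := fun j => Nat.rec (fun _ => v0)
    (fun i s x => liftP (q ((((i : ℝ) + 1) / k) • x)).1 (s x)) j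
  have hσs : ∀ j x, σ (j + 1) x = liftP (q ((((j : ℝ) + 1) / k) • x)).1 (σ j x) := fun j x => rfl
  have hcont : ∀ j, Continuous (σ j) := by
    intro j
    induction j with
    | zero => exact continuous_const
    | succ j ih =>
      have hqc : Continuous fun x : E => (q ((((j : ℝ) + 1) / k) • x)).1 :=
        continuous_subtype_val.comp (hq.comp (continuous_const_smul _))
      have hc : ∀ i : Fin 3, Continuous fun x : E => (((q ((((j : ℝ) + 1) / k) • x)).1 i : ℝ) : ℂ) := by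
        intro i
        exact Complex.continuous_ofReal.comp ((EuclideanSpace.proj i).continuous.comp hqc)
      have e : σ (j + 1) = fun x => liftP (q ((((j : ℝ) + 1) / k) • x)).1 (σ j x) := rfl
      rw [e]
      unfold liftP
      have h0 := hc 0
      have h1 := hc 1
      have h2 := hc 2
      have h3 := ih.fst
      have h4 := ih.snd
      exact (((continuous_const.add h2).mul h3).add ((h0.sub (h1.mul continuous_const)).mul h4)).prodMk
        (((h0.add (h1.mul continuous_const)).mul h3).add ((continuous_const.sub h2).mul h4))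
  have hmain : ∀ j : ℕ, j ≤ k → ∀ x ∈ Metric.closedBall (0 : E) R,
      σ j x ≠ 0 ∧ InLine (q (((j : ℝ) / k) • x)).1 (σ j x) := by
    intro j
    induction j with
    | zero =>
      intro _ x _
      refine ⟨hv0, ?_⟩
      change InLine (q ((((0 : ℕ) : ℝ) / k) • x)).1 v0
      simpa using hl0
    | succ j ih =>
      intro hj x hx
      obtain ⟨h1, h2⟩ := ih (by omega) x hx
      rw [hσs]
      have hx' : ‖x‖ ≤ R := by simpa using hx
      have hmem : ∀ i : ℕ, i ≤ k → ((i : ℝ) / k) • x ∈ Metric.closedBall (0 : E) R := by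
        intro i hi
        have hi' : (i : ℝ) / k ≤ 1 := by
          rw [div_le_one hk0]
          exact_mod_cast hi
        have hi0 : (0 : ℝ) ≤ (i : ℝ) / k := by positivity
        rw [mem_closedBall_zero_iff, norm_smul, Real.norm_of_nonneg hi0]
        calc (i : ℝ) / k * ‖x‖ ≤ 1 * ‖x‖ := mul_le_mul_of_nonneg_right hi' (norm_nonneg _)
          _ ≤ R := by linarith
      have hd : dist (q (((j : ℝ) / k) • x)) (q ((((j : ℝ) + 1) / k) • x)) < 2 := by
        refine hu _ (hmem j (by omega)) _ (by have := hmem (j + 1) hj; push_cast at this; exact this) ?_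
        rw [dist_eq_norm, ← sub_smul, norm_smul]
        have : (j : ℝ) / k - ((j : ℝ) + 1) / k = - (1 / k) := by ring
        rw [this, norm_neg, Real.norm_of_nonneg (by positivity), one_div, inv_mul_lt_iff₀ hk0]
        linarith
      refine ⟨lift_step _ _ hd _ h1 h2, ?_⟩
      have := lift_inLine (q ((((j : ℝ) + 1) / k) • x)) (σ j x)
      push_cast
      exact this
  refine ⟨σ k, (hcont k).continuousOn, fun x hx => ?_⟩
  obtain ⟨h1, h2⟩ := hmain k le_rfl x (Metric.ball_subset_closedBall hx)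
  refine ⟨h1, ?_⟩
  rwa [div_self hk0.ne', one_smul] at h2

end Pool.Agent.H289R3.FS
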