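import Pool.Agent.H289R3.FS.BData

set_option autoImplicit false
open Set Topology Filter
open scoped ContDiff

namespace Pool.Agent.H289R3.FS

/-- The orbit space of a smooth flow gives an `OFlow`. -/
theorem oflow_of {E Q : Type} [TopologicalSpace E] [TopologicalSpace Q] {Φ : ℝ → E → E}
    (hc : Continuous (fun p : ℝ × E => Φ p.1 p.2)) (h0 : ∀ x, Φ 0 x = x)
    (hadd : ∀ (s t : ℝ) (x : E), Φ (s + t) x = Φ s (Φ t x))
    (g : Quot (fun x y : E => ∃ t : ℝ, Φ t x = y) ≃ₜ Q) :
    OFlow Φ (fun x => g (Quot.mk _ x)) where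
  cont := hc
  zero := h0
  add := hadd
  fcont := g.continuous.comp continuous_quot_mk
  fopen := by
    intro O hO
    have : (fun x => g (Quot.mk _ x)) '' O = g '' (Quot.mk (fun x y : E => ∃ t : ℝ, Φ t x = y) '' O) := by
      rw [image_image]
    rw [this]
    apply g.isOpenMap
    rw [isOpen_coinduced]
    have heq : Equivalence (fun x y : E => ∃ t : ℝ, Φ t x = y) := by
      refine ⟨fun x => ⟨0, h0 x⟩, ?_, ?_⟩
      · rintro x _ ⟨t, rfl⟩
        exact ⟨-t, by rw [← hadd, neg_add_cancel, h0]⟩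
      · rintro x _ _ ⟨t, rfl⟩ ⟨s, rfl⟩
        exact ⟨s + t, hadd s t x⟩
    have e : Quot.mk (fun x y : E => ∃ t : ℝ, Φ t x = y) ⁻¹'
        (Quot.mk (fun x y : E => ∃ t : ℝ, Φ t x = y) '' O) = ⋃ t, Φ t ⁻¹' O := by
      ext x
      simp only [mem_preimage, mem_image, mem_iUnion]
      constructor
      · rintro ⟨y, hy, hxy⟩
        rw [Quot.eq, heq.eqvGen_iff] at hxy
        obtain ⟨t, ht⟩ := hxy
        refine ⟨-t, ?_⟩
        rw [← ht, ← hadd, neg_add_cancel, h0]
        exact hy
      · rintro ⟨t, ht⟩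
        refine ⟨Φ t x, ht, ?_⟩
        rw [Quot.eq, heq.eqvGen_iff]
        exact ⟨-t, by rw [← hadd, neg_add_cancel, h0]⟩
    rw [e]
    exact isOpen_iUnion fun t => hO.preimage (hc.comp (continuous_const.prodMk continuous_id))
  fibre := by
    intro x y
    have heq : Equivalence (fun x y : E => ∃ t : ℝ, Φ t x = y) := by
      refine ⟨fun x => ⟨0, h0 x⟩, ?_, ?_⟩
      · rintro x _ ⟨t, rfl⟩
        exact ⟨-t, by rw [← hadd, neg_add_cancel, h0]⟩
      · rintro x _ _ ⟨t, rfl⟩ ⟨s, rfl⟩
        exact ⟨s + t, hadd s t x⟩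
    rw [g.injective.eq_iff, Quot.eq, heq.eqvGen_iff]

abbrev QQ := S2 × S2 × S2

/-- the torus in `S² × S² × S²` -/
def tor (e : ℝ → ℝ → S2) (y : Fin 6 → ℝ) : QQ := (e (y 0) (y 1), e (y 2) (y 4), e (y 5) (y 3))

theorem no_flow (hTorus : TaskTorus6) (hP : TaskProper) (hS : TaskSection) (hH : Hopf)
    {E : Type} [NormedAddCommGroup E] [NormedSpace ℝ E] [FiniteDimensional ℝ E]
    {Φ : ℝ → E → E} {f : E → QQ} (h : OFlow Φ f) (hfs : Function.Surjective f) : False := by
  classical
  have : ProperSpace E := FiniteDimensional.proper ℝ E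
  obtain ⟨e, hec, hep, hD⟩ := hH
  have hp1 : ∀ (s t : ℝ) (k : ℤ), e (s + k) t = e s t := by
    intro s t k
    have hper : Function.Periodic (fun s => e s t) 1 := fun s => (hep s t).1
    have := hper.int_mul k s
    simpa using this
  have hp2 : ∀ (s t : ℝ) (k : ℤ), e s (t + k) = e s t := by
    intro s t k
    have hper : Function.Periodic (fun t => e s t) 1 := fun t => (hep s t).2
    have := hper.int_mul k t
    simpa using this
  have tor_int : ∀ (y : Fin 6 → ℝ) (k : Fin 6 → ℤ), tor e (fun j => y j + k j) = tor e y := by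
    intro y k
    unfold tor
    simp only [hp1, hp2]
  have tor_ee : ∀ (y : Fin 6 → ℝ) (j : Fin 6), tor e (y + ee j) = tor e y := by
    intro y j
    have : y + ee j = fun i => y i + ((Pi.single j 1 : Fin 6 → ℤ) i : ℝ) := by
      funext i
      simp only [Pi.add_apply, ee]
      by_cases h : i = j
      · subst h; simp
      · simp [h]
    rw [this, tor_int]
  have tor_cont : Continuous (tor e) := by
    have h1 : ∀ i j : Fin 6, Continuous (fun y : Fin 6 → ℝ => e (y i) (y j)) := by
      intro i j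
      have h2 : Continuous (fun y : Fin 6 → ℝ => (y i, y j)) := by fun_prop
      exact Continuous.comp (g := fun p : ℝ × ℝ => e p.1 p.2) hec h2
    exact (h1 0 1).prodMk ((h1 2 4).prodMk (h1 5 3))
  have hsurj : ∀ y, ∃ x, f x = tor e y := fun y => hfs _
  -- the bad set
  let K : Set QQ := {m | ¬ IsCompact (f ⁻¹' {m})}
  have hKc : IsCompact K := by
    apply IsClosed.isCompact
    rw [← isOpen_compl_iff, isOpen_iff_mem_nhds]
    intro m hm
    have hmc : IsCompact (f ⁻¹' {m}) := by
      by_contra hcon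
      exact hm hcon
    obtain ⟨x, rfl⟩ := hfs m
    filter_upwards [h.compact_nhds hmc] with n hn hn'
    exact hn' hn
  obtain ⟨σ, hσc, hσ⟩ := hS E QQ Φ f h K hKc (fun m _ => hfs m) (by
    intro x hx L hL
    refine hP E QQ Φ f h x ?_ L hL
    intro t ht
    by_contra hne
    exact hx (h.compact_of_periodic hne ht))
  -- a bound on the section
  have hbound : ∀ L : Set E, IsCompact L → ∃ R : ℝ, ∀ x ∈ L, ‖x‖ < R := by
    intro L hL
    obtain ⟨B, hB⟩ := hL.exists_bound_of_continuousOn (f := fun x : E => x)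
      continuous_id.continuousOn
    exact ⟨B + 1, fun x hx => (hB x hx).trans_lt (lt_add_one _)⟩
  obtain ⟨R₁, hR₁⟩ := hbound _ (hKc.image_of_continuousOn hσc)
  obtain ⟨Θ₁, hΘ₁c, hΘ₁⟩ := hD E (fun x => (f x).1) (continuous_fst.comp h.fcont) R₁
  -- the bad set in the universal cover of the torus
  let C : Set (Fin 6 → ℝ) := {y | tor e y ∈ K}
  have hCint : ∀ (y : Fin 6 → ℝ) (k : Fin 6 → ℤ), y ∈ C ↔ (fun j => y j + k j) ∈ C := by
    intro y k
    simp only [C, mem_ofPred_eq, tor_int]
  have hσR : ∀ y ∈ C, ‖σ (tor e y)‖ < R₁ := fun y hy => hR₁ _ ⟨_, hy, rfl⟩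
  have hσ1 : ∀ y ∈ C, (f (σ (tor e y))).1 = e (y 0) (y 1) := by
    intro y hy
    rw [hσ _ hy]
    rfl
  refine hTorus C (hKc.isClosed.preimage tor_cont) ?_
    (fun y => Θ₁ (σ (tor e y)) (y 0) (y 1)) ?_ ?_ ?_
  · intro y j
    simp only [C, mem_ofPred_eq, tor_ee]
  · have hmaps : ContinuousOn (fun y : Fin 6 → ℝ =>
        ((σ (tor e y), (y 0, y 1)) : E × ℝ × ℝ)) C := by
      apply ContinuousOn.prodMk
      · exact hσc.comp tor_cont.continuousOn (fun y hy => hy)
      · exact Continuous.continuousOn (by fun_prop)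
    exact hΘ₁c.comp hmaps (fun y hy => ⟨hσR y hy, hσ1 y hy⟩)
  · intro y hy j
    simp only [tor_ee]
    obtain ⟨h1, h2⟩ := hΘ₁ (σ (tor e y)) (y 0) (y 1) (hσR y hy) (hσ1 y hy)
    by_cases hj0 : j = 0
    · subst hj0
      simp only [Pi.add_apply, ee, Pi.single_eq_same]
      rw [if_neg (by decide), add_zero]
      have : (Pi.single 0 1 : Fin 6 → ℝ) 1 = 0 := by simp
      rw [this, add_zero]
      exact h1
    · by_cases hj1 : j = 1
      · subst hj1
        simp only [Pi.add_apply, ee, Pi.single_eq_same, if_true]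
        have : (Pi.single 1 1 : Fin 6 → ℝ) 0 = 0 := by simp
        rw [this, add_zero]
        exact h2
      · simp only [Pi.add_apply, ee]
        have e0 : (Pi.single j 1 : Fin 6 → ℝ) 0 = 0 := by simp [Ne.symm hj0]
        have e1 : (Pi.single j 1 : Fin 6 → ℝ) 1 = 0 := by simp [Ne.symm hj1]
        rw [e0, e1, if_neg hj1]
        simp
  · intro δ hδ
    let A : Set (Fin 6 → ℝ) := {y | ∀ c ∈ C, δ ≤ dist y c}
    have hAcl : IsClosed A := by
      have : A = ⋂ c ∈ C, {y | δ ≤ dist y c} := by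
        ext y
        simp [A]
      rw [this]
      exact isClosed_biInter fun c _ => isClosed_le continuous_const (by fun_prop)
    have hAc : ∀ y ∈ A, IsCompact (f ⁻¹' {tor e y}) := by
      intro y hy
      by_contra hcon
      have hyC : y ∈ C := hcon
      have := hy y hyC
      rw [dist_self] at this
      linarith
    have hTA : IsCompact (tor e '' A) := by
      have : tor e '' A = tor e '' (A ∩ Icc 0 1) := by
        apply Subset.antisymm
        · rintro _ ⟨y, hy, rfl⟩
          refine ⟨fun j => Int.fract (y j), ⟨?_, fun j => Int.fract_nonneg _,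
            fun j => (Int.fract_lt_one _).le⟩, ?_⟩
          · intro c hc
            have h1 := hy (fun j => c j + (⌊y j⌋ : ℤ)) ((hCint c _).1 hc)
            have h2 : dist (fun j => Int.fract (y j)) c =
                dist y (fun j => c j + (⌊y j⌋ : ℤ)) := by
              rw [dist_eq_norm, dist_eq_norm]
              congr 1
              funext j
              simp only [Pi.sub_apply]
              have := Int.fract_add_floor (y j)
              linarith
            rw [h2]
            exact h1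
          · rw [← tor_int (fun j => Int.fract (y j)) (fun j => ⌊y j⌋)]
            congr 1
            funext j
            exact Int.fract_add_floor (y j)
        · exact image_mono inter_subset_left
      rw [this]
      exact (isCompact_Icc.inter_left hAcl).image tor_cont
    obtain ⟨L, hL, hLA⟩ : ∃ L : Set E, IsCompact L ∧ ∀ m ∈ tor e '' A, f ⁻¹' {m} ⊆ L := by
      refine hTA.induction_on (p := fun s => ∃ L : Set E, IsCompact L ∧
        ∀ m ∈ s, f ⁻¹' {m} ⊆ L) ?_ ?_ ?_ ?_
      · exact ⟨∅, isCompact_empty, by simp⟩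
      · rintro s t hst ⟨L, hL, hL'⟩
        exact ⟨L, hL, fun m hm => hL' m (hst hm)⟩
      · rintro s t ⟨L, hL, hL'⟩ ⟨L2, hL2, hL2'⟩
        refine ⟨L ∪ L2, hL.union hL2, ?_⟩
        rintro m (hm | hm)
        · exact (hL' m hm).trans subset_union_left
        · exact (hL2' m hm).trans subset_union_right
      · rintro _ ⟨y, hy, rfl⟩
        obtain ⟨x, hx⟩ := hsurj y
        have hc := hAc y hy
        rw [← hx] at hc ⊢
        obtain ⟨L, hL, -, hev⟩ := h.stable hc isOpen_univ (subset_univ _)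
        exact ⟨{n | f ⁻¹' {n} ⊆ L}, mem_nhdsWithin_of_mem_nhds hev, L, hL, fun m hm => hm⟩
    obtain ⟨R₂, hR₂⟩ := hbound L hL
    obtain ⟨Θ₂, hΘ₂c, hΘ₂⟩ := hD E (fun x => (f x).2.1)
      (continuous_fst.comp (continuous_snd.comp h.fcont)) R₂
    obtain ⟨Θ₃, hΘ₃c, hΘ₃⟩ := hD E (fun x => (f x).2.2)
      (continuous_snd.comp (continuous_snd.comp h.fcont)) R₂
    refine bdata hP h tor_cont tor_ee hsurj (O := {x | ‖x‖ < R₂}) ?_
      (D₁ := fun p => Θ₂ p.1 (p.2 2) (p.2 4)) (D₂ := fun p => Θ₃ p.1 (p.2 5) (p.2 3))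
      ?_ ?_ ?_ ?_ (K := A) ?_
    · exact isOpen_lt continuous_norm continuous_const
    · have hmaps : Continuous (fun p : E × (Fin 6 → ℝ) =>
          ((p.1, (p.2 2, p.2 4)) : E × ℝ × ℝ)) := by
        fun_prop
      exact hΘ₂c.comp hmaps.continuousOn
        (fun p hp' => ⟨hp'.1, by
          have := hp'.2
          change (f p.1).2.1 = _
          rw [this]
          rfl⟩)
    · have hmaps : Continuous (fun p : E × (Fin 6 → ℝ) =>
          ((p.1, (p.2 5, p.2 3)) : E × ℝ × ℝ)) := by
        fun_prop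
      exact hΘ₃c.comp hmaps.continuousOn
        (fun p hp' => ⟨hp'.1, by
          have := hp'.2
          change (f p.1).2.2 = _
          rw [this]
          rfl⟩)
    · intro x y hx hxy j
      obtain ⟨h1, h2⟩ := hΘ₂ x (y 2) (y 4) hx (by rw [hxy]; rfl)
      simp only [Pi.add_apply, ee]
      by_cases hj2 : j = 2
      · subst hj2
        have e4 : (Pi.single 2 1 : Fin 6 → ℝ) 4 = 0 := by simp
        rw [Pi.single_eq_same, e4, add_zero, if_neg (by decide)]
        simpa using h1
      · have e2 : (Pi.single j 1 : Fin 6 → ℝ) 2 = 0 := by simp [Ne.symm hj2]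
        rw [e2, add_zero]
        by_cases hj4 : j = 4
        · subst hj4
          rw [Pi.single_eq_same, if_pos rfl]
          exact h2
        · have e4 : (Pi.single j 1 : Fin 6 → ℝ) 4 = 0 := by simp [Ne.symm hj4]
          rw [e4, add_zero, if_neg hj4]
          simp
    · intro x y hx hxy j
      obtain ⟨h1, h2⟩ := hΘ₃ x (y 5) (y 3) hx (by rw [hxy]; rfl)
      simp only [Pi.add_apply, ee]
      by_cases hj2 : j = 5
      · subst hj2
        have e4 : (Pi.single 5 1 : Fin 6 → ℝ) 3 = 0 := by simp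
        rw [Pi.single_eq_same, e4, add_zero, if_neg (by decide)]
        simpa using h1
      · have e2 : (Pi.single j 1 : Fin 6 → ℝ) 5 = 0 := by simp [Ne.symm hj2]
        rw [e2, add_zero]
        by_cases hj4 : j = 3
        · subst hj4
          rw [Pi.single_eq_same, if_pos rfl]
          exact h2
        · have e4 : (Pi.single j 1 : Fin 6 → ℝ) 3 = 0 := by simp [Ne.symm hj4]
          rw [e4, add_zero, if_neg hj4]
          simp
    · intro y hy
      exact ⟨hAc y hy, fun x hx => hR₂ x (hLA _ ⟨y, hy, rfl⟩ hx)⟩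

theorem not_main_of (hTorus : TaskTorus6) (hP : TaskProper) (hS : TaskSection) (hH : Hopf)
    (hQ : TaskQ) :
    ¬ (∀ n : ℕ, 1 ≤ n →
      ∀ (Q : Type) [TopologicalSpace Q] [T2Space Q] [SecondCountableTopology Q]
        [ChartedSpace (EuclideanSpace ℝ (Fin n)) Q] [SimplyConnectedSpace Q],
        ∃ Φ : ℝ → EuclideanSpace ℝ (Fin (n + 1)) → EuclideanSpace ℝ (Fin (n + 1)),
          ContDiff ℝ (⊤ : ℕ∞)
              (fun p : ℝ × EuclideanSpace ℝ (Fin (n + 1)) => Φ p.1 p.2) ∧
          (∀ x, Φ 0 x = x) ∧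
          (∀ (s t : ℝ) (x : EuclideanSpace ℝ (Fin (n + 1))), Φ (s + t) x = Φ s (Φ t x)) ∧
          Nonempty
            (Quot (fun x y : EuclideanSpace ℝ (Fin (n + 1)) => ∃ t : ℝ, Φ t x = y) ≃ₜ Q)) := by
  intro hall
  obtain ⟨⟨hch⟩, hsc⟩ := hQ
  obtain ⟨Φ, hΦ, h0, hadd, ⟨g⟩⟩ := hall 6 (by norm_num) QQ
  have h := oflow_of hΦ.continuous h0 hadd g
  refine no_flow hTorus hP hS hH h ?_
  intro m
  obtain ⟨x, hx⟩ := Quot.exists_rep (g.symm m)
  exact ⟨x, by simp only [hx]; exact g.apply_symm_apply m⟩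

end Pool.Agent.H289R3.FS
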