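import Pool.Agent.H289R3.FS.Stmts

/-!
# A free orbit is properly embedded
-/

set_option autoImplicit false
open Set Topology Filter

namespace Pool.Agent.H289R3.FS

theorem taskProper : TaskProper := by
  intro Y N _ _ _ _ _ φ f hφ y hfree L hL
  by_contra hcon
  push Not at hcon
  -- the orbit
  have hO : ∀ w, f y = f w ↔ ∃ t, φ t y = w := fun w => hφ.fibre y w
  set O : Set Y := f ⁻¹' {f y} with hOdef
  have hmem : ∀ w, w ∈ O ↔ ∃ t, φ t y = w := by
    intro w
    rw [hOdef, mem_preimage, mem_singleton_iff, ← hO w, eq_comm]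
  have hOc : IsClosed O := isClosed_singleton.preimage hφ.fcont
  have hyO : y ∈ O := rfl
  haveI : Nonempty O := ⟨⟨y, hyO⟩⟩
  haveI : LocallyCompactSpace O := hOc.isClosedEmbedding_subtypeVal.locallyCompactSpace
  have hcy : Continuous fun t : ℝ => φ t y :=
    hφ.cont.comp (continuous_id.prodMk continuous_const)
  have hinj : ∀ s t : ℝ, φ s y = φ t y → s = t := by
    intro s t hst
    have h1 : φ (s - t) y = y := by
      have h2 : s - t = -t + s := by ring
      rw [h2, hφ.add, hst, ← hφ.add, neg_add_cancel, hφ.zero]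
    have h3 := hfree _ h1
    linarith
  let F : ℤ → Set O := fun n => {w | (w : Y) ∈ (fun t : ℝ => φ t y) '' Icc (n : ℝ) (n + 1)}
  have hFc : ∀ n, IsClosed (F n) := fun n =>
    ((isCompact_Icc.image hcy).isClosed).preimage continuous_subtype_val
  have hFu : ⋃ n, F n = univ := by
    rw [eq_univ_iff_forall]
    rintro ⟨w, hw⟩
    obtain ⟨t, ht⟩ := (hmem w).1 hw
    refine mem_iUnion.2 ⟨⌊t⌋, t, ⟨Int.floor_le t, (Int.lt_floor_add_one t).le⟩, ht⟩
  obtain ⟨n, hn⟩ := nonempty_interior_of_iUnion_of_closed hFc hFu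
  obtain ⟨w, hw⟩ := hn
  rw [mem_interior] at hw
  obtain ⟨V, hVF, hVo, hwV⟩ := hw
  obtain ⟨W, hWo, hWV⟩ := isOpen_induced_iff.1 hVo
  obtain ⟨d, hd⟩ := (hmem w).1 w.2
  -- a sequence of large times
  choose t htL htR using hcon
  have hcl : ∃ z ∈ L, MapClusterPt z atTop (fun k : ℕ => φ (t k) y) :=
    hL.exists_mapClusterPt (tendsto_principal.2 (Eventually.of_forall fun k => htL k))
  obtain ⟨z, hzL, hz⟩ := hcl
  have hzO : z ∈ O := by
    refine hOc.mem_of_mapClusterPt hz ?_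
    exact Eventually.of_forall fun k => (hmem _).2 ⟨_, rfl⟩
  obtain ⟨c, hc⟩ := (hmem z).1 hzO
  have hzw : φ (d - c) z ∈ W := by
    have h1 : φ (d - c) z = (w : Y) := by
      rw [← hc, ← hφ.add, sub_add_cancel, hd]
    rw [h1]
    have h2 : w ∈ Subtype.val ⁻¹' W := by rw [hWV]; exact hwV
    exact h2
  have hcont : Continuous fun v : Y => φ (d - c) v :=
    hφ.cont.comp (continuous_const.prodMk continuous_id)
  have hnhds : {v | φ (d - c) v ∈ W} ∈ 𝓝 z := (hWo.preimage hcont).mem_nhds hzw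
  have hfreq := hz.frequently hnhds
  obtain ⟨k, hk1, hk2⟩ := (hfreq.and_eventually
    (eventually_ge_atTop ⌈|c - d| + |(n : ℝ)| + 1⌉₊)).exists
  have h1 : φ (d - c) (φ (t k) y) = φ (d - c + t k) y := (hφ.add _ _ _).symm
  have h2 : φ (d - c + t k) y ∈ O := (hmem _).2 ⟨_, rfl⟩
  have h3 : (⟨φ (d - c + t k) y, h2⟩ : O) ∈ V := by
    rw [← hWV]
    show φ (d - c + t k) y ∈ W
    rw [← h1]
    exact hk1
  obtain ⟨s, hs, hse⟩ := hVF h3
  have h4 : s = d - c + t k := hinj _ _ hse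
  have h5 := htR k
  have h6 : |c - d| + |(n : ℝ)| + 1 ≤ (k : ℝ) := Nat.ceil_le.1 hk2
  have h7 : |t k| ≤ |c - d| + |(n : ℝ)| + 1 := by
    have h8 : t k = (c - d) + s := by rw [h4]; ring
    rw [h8]
    refine (abs_add_le _ _).trans ?_
    have h9 : |s| ≤ |(n : ℝ)| + 1 := by
      rw [abs_le]
      have h10 := neg_abs_le (n : ℝ)
      have h11 := le_abs_self (n : ℝ)
      constructor
      · linarith [hs.1]
      · linarith [hs.2]
    linarith
  linarith

end Pool.Agent.H289R3.FS
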