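import Pool.Agent.H289R3.FQ.Tasks

/-!
# Project: `S² × S² × S²` is not the orbit space of a flow on `ℝ⁷` (MP_74810d_gt, S13392)
-/

set_option autoImplicit false
open Set Topology
open scoped ContDiff

namespace Pool.Agent.H289R3.FS

/-- the circle `ℝ/ℤ` -/
abbrev T1 := AddCircle (1 : ℝ)

/-- A continuous real flow `φ` on `Y` with open continuous quotient map `f`, whose fibres are the
orbits. -/
structure OFlow {Y N : Type*} [TopologicalSpace Y] [TopologicalSpace N] (φ : ℝ → Y → Y)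
    (f : Y → N) : Prop where
  cont : Continuous (fun p : ℝ × Y => φ p.1 p.2)
  zero : ∀ y, φ 0 y = y
  add : ∀ s t y, φ (s + t) y = φ s (φ t y)
  fcont : Continuous f
  fopen : IsOpenMap f
  fibre : ∀ x y, f x = f y ↔ ∃ t, φ t x = y

/-- TASK PROPER. A free orbit is properly embedded. -/
def TaskProper : Prop :=
  ∀ (Y N : Type) [TopologicalSpace Y] [T2Space Y] [LocallyCompactSpace Y] [TopologicalSpace N]
    [T1Space N] (φ : ℝ → Y → Y) (f : Y → N), OFlow φ f → ∀ y : Y, (∀ t, φ t y = y → t = 0) →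
    ∀ L : Set Y, IsCompact L → ∃ R : ℝ, ∀ t, φ t y ∈ L → |t| ≤ R

/-- TASK SECTION. There is a continuous section over a compact set of proper orbits (not obvious:
different transversals need not patch, since nearby orbits may return after a long time). -/
def TaskSection : Prop :=
  ∀ (Y N : Type) [TopologicalSpace Y] [Nonempty Y] [T2Space Y] [LocallyCompactSpace Y]
    [FirstCountableTopology Y] [TopologicalSpace N] [T2Space N] (φ : ℝ → Y → Y) (f : Y → N),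
    OFlow φ f → ∀ K : Set N, IsCompact K → K ⊆ range f →
    (∀ y, f y ∈ K → ∀ L : Set Y, IsCompact L → ∃ R : ℝ, ∀ t, φ t y ∈ L → |t| ≤ R) →
    ∃ σ : N → Y, ContinuousOn σ K ∧ ∀ m ∈ K, f (σ m) = m

/-- the unit vector of direction `j` in `ℝ⁶` -/
noncomputable def ee (j : Fin 6) : Fin 6 → ℝ := Pi.single j 1

/-- TASK TORUS6 (discrete cup product argument on the six-dimensional torus). Adaptation of
`Pool.Agent.H790.FQ.taskTorus`: the only changes are `Fin 5` to `Fin 6` and `y 2` to `y 5` in the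
case `j = 3`. -/
def TaskTorus6 : Prop :=
  ∀ (C : Set (Fin 6 → ℝ)), IsClosed C → (∀ y j, y ∈ C ↔ y + ee j ∈ C) →
    ∀ (f : (Fin 6 → ℝ) → T1), ContinuousOn f C →
    (∀ y ∈ C, ∀ j, f (y + ee j) = f y + (if j = 1 then ((y 0 : ℝ) : T1) else 0)) →
    (∀ δ > 0, ∃ (B₀ B₁ : Set (Fin 6 → ℝ)) (g₀ g₁ : (Fin 6 → ℝ) → T1) (r : (Fin 6 → ℝ) → ℚ),
      IsOpen B₀ ∧ IsOpen B₁ ∧ Disjoint B₀ B₁ ∧ (∀ y j, y ∈ B₀ ↔ y + ee j ∈ B₀) ∧
      (∀ y j, y ∈ B₁ ↔ y + ee j ∈ B₁) ∧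
      (∀ y, (∀ c ∈ C, δ ≤ dist y c) → y ∈ B₀ ∪ B₁) ∧
      ContinuousOn g₀ B₀ ∧ ContinuousOn g₁ B₁ ∧
      (∀ y ∈ B₀, ∀ j, g₀ (y + ee j) = g₀ y + (if j = 4 then ((y 2 : ℝ) : T1) else 0)) ∧
      (∀ y ∈ B₁, ∀ᶠ y' in 𝓝 y, r y' = r y) ∧ (∀ y ∈ B₁, ∀ j, r (y + ee j) = r y) ∧
      (∀ y ∈ B₁, ∀ j, g₁ (y + ee j) = g₁ y + (if j = 3 then (((r y).den * y 5 : ℝ) : T1)
        else if j = 4 then ((-((r y).num * y 2) : ℝ) : T1) else 0))) →
    False

/-- the unit sphere in `ℝ³` -/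
abbrev S2 := Metric.sphere (0 : EuclideanSpace ℝ (Fin 3)) 1

/-- `v` lies in the complex line of `ℂ²` corresponding to `p ∈ S²` (the image of the projection
`(1 + p · pauli) / 2`) -/
def InLine (p : EuclideanSpace ℝ (Fin 3)) (v : ℂ × ℂ) : Prop :=
  ((p 0 : ℂ) - p 1 * Complex.I) * v.2 = (1 - p 2) * v.1 ∧
    ((p 0 : ℂ) + p 1 * Complex.I) * v.1 = (1 + p 2) * v.2

/-- TASK LIFT. Lifting through the Hopf fibration over a ball. -/
def TaskLift : Prop :=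
  ∀ (E : Type) [NormedAddCommGroup E] [NormedSpace ℝ E] [FiniteDimensional ℝ E] (q : E → S2),
    Continuous q → ∀ R : ℝ, ∃ σ : E → ℂ × ℂ, ContinuousOn σ (Metric.ball 0 R) ∧
      ∀ x ∈ Metric.ball (0 : E) R, σ x ≠ 0 ∧ InLine (q x) (σ x)

/-- TASK ETA. An explicit map of degree one from the torus to the sphere with a quasi-periodic
lift. -/
def TaskEta : Prop :=
  ∃ (e : ℝ → ℝ → S2) (η : ℝ → ℝ → ℂ × ℂ), Continuous (fun p : ℝ × ℝ => e p.1 p.2) ∧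
    Continuous (fun p : ℝ × ℝ => η p.1 p.2) ∧ ∀ s t : ℝ, η s t ≠ 0 ∧ InLine (e s t) (η s t) ∧
      e (s + 1) t = e s t ∧ e s (t + 1) = e s t ∧ η (s + 1) t = η s t ∧
      η s (t + 1) = Complex.exp (2 * Real.pi * Complex.I * s) • η s t

/-- conclusion of TASK D -/
def Hopf : Prop :=
  ∃ e : ℝ → ℝ → S2, Continuous (fun p : ℝ × ℝ => e p.1 p.2) ∧
    (∀ s t, e (s + 1) t = e s t ∧ e s (t + 1) = e s t) ∧
    ∀ (E : Type) [NormedAddCommGroup E] [NormedSpace ℝ E] [FiniteDimensional ℝ E] (q : E → S2),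
      Continuous q → ∀ R : ℝ, ∃ D : E → ℝ → ℝ → T1,
        ContinuousOn (fun x : E × ℝ × ℝ => D x.1 x.2.1 x.2.2)
          {x | ‖x.1‖ < R ∧ q x.1 = e x.2.1 x.2.2} ∧
        ∀ x s t, ‖x‖ < R → q x = e s t →
          D x (s + 1) t = D x s t ∧ D x s (t + 1) = D x s t + (s : T1)

/-- TASK D -/
def TaskD : Prop := TaskLift → TaskEta → Hopf

/-- TASK Q -/
def TaskQ : Prop :=
  Nonempty (ChartedSpace (EuclideanSpace ℝ (Fin 6)) (S2 × S2 × S2)) ∧
    SimplyConnectedSpace (S2 × S2 × S2)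

end Pool.Agent.H289R3.FS
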